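import Pool.Agent.Q18.FIR6

/-!
# MP_1698af_al: extending a primitive element to a basis supported on a subtree

Let `A = K[F]` be the group algebra of a free group with basis `B`, `T` a subtree of the right
Cayley graph, `I` a right ideal generated by elements supported on `T`, and `f ∈ I` an element
supported on `T` and primitive in `I`. Then `I` has a basis which contains `f` and is supported
on `T`. This is proved for every field `K` and every set `B`, finite or infinite.
-/

namespace Pool.Agent.Results.MP_1698af_al.SubtreeBases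

open Pool.Agent.Q18.FIR

/-- the right Cayley graph of the free group: the vertices are the elements of the group and there
is an edge between `g` and `g b` for all `g` and all `b` in the basis -/
def cayleyGraph (B : Type*) : SimpleGraph (FreeGroup B) where
  Adj g h := ∃ b : B, h = g * FreeGroup.of b ∨ g = h * FreeGroup.of b
  symm := by
    constructor
    rintro g h ⟨b, hb⟩
    exact ⟨b, hb.symm⟩
  loopless := by
    constructor
    rintro g ⟨b, hb⟩
    have : FreeGroup.of b = 1 := by
      rcases hb with hb | hb <;> exact mul_eq_left.1 hb.symm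
    exact FreeGroup.of_ne_one b this

/-- subtrees of the Cayley graph, identified with their vertex sets -/
def IsSubtree {B : Type*} (T : Set (FreeGroup B)) : Prop := ((cayleyGraph B).induce T).Connected

/-- right ideals of the group algebra: right submodules -/
abbrev RightIdeal (K B : Type*) [Field K] : Type _ :=
  Submodule (MonoidAlgebra K (FreeGroup B))ᵐᵒᵖ (MonoidAlgebra K (FreeGroup B))

/-- the support of `a` lies in `T` -/
def SupportedOn {K B : Type*} [Field K] (a : MonoidAlgebra K (FreeGroup B))
    (T : Set (FreeGroup B)) : Prop := ∀ g, a.coeff g ≠ 0 → g ∈ T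

/-- `I` is generated, as a right ideal, by its elements supported on `T` -/
def GeneratedOn {K B : Type*} [Field K] (I : RightIdeal K B) (T : Set (FreeGroup B)) : Prop :=
  Submodule.span (MonoidAlgebra K (FreeGroup B))ᵐᵒᵖ {a | a ∈ I ∧ SupportedOn a T} = I

/-- `G` is a free generating set of the right ideal `I` as a right module -/
def IsBasisOf {K B : Type*} [Field K] (G : Set (MonoidAlgebra K (FreeGroup B)))
    (I : RightIdeal K B) : Prop :=
  LinearIndepOn (MonoidAlgebra K (FreeGroup B))ᵐᵒᵖ id G ∧
    Submodule.span (MonoidAlgebra K (FreeGroup B))ᵐᵒᵖ G = I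

/-- `f` belongs to some basis of `I` -/
def PrimitiveIn {K B : Type*} [Field K] (f : MonoidAlgebra K (FreeGroup B))
    (I : RightIdeal K B) : Prop := ∃ G, IsBasisOf G I ∧ f ∈ G

theorem conn_of_isSubtree {B : Type*} {T : Set (FreeGroup B)} (hT : IsSubtree T) : Conn T := by
  classical
  intro s hs t ht
  have h1 := hT.preconnected ⟨s, hs⟩ ⟨t, ht⟩
  rw [SimpleGraph.reachable_iff_reflTransGen] at h1
  have key : ∀ a b : T, Relation.ReflTransGen ((cayleyGraph B).induce T).Adj a b →
      Relation.ReflTransGen (fun a b => a ∈ T ∧ b ∈ T ∧ ∃ c, b = a * lt c) (a : FreeGroup B) b := by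
    intro a b hab
    induction hab with
    | refl => exact Relation.ReflTransGen.refl
    | @tail b c _ hbc ih =>
      refine ih.tail ⟨b.2, c.2, ?_⟩
      obtain ⟨d, hd | hd⟩ := hbc
      · exact ⟨(d, true), hd⟩
      · refine ⟨(d, false), ?_⟩
        have h2 : lt (d, false) = (FreeGroup.of d)⁻¹ := lt_il (d, true)
        have h3 : (b : FreeGroup B) = c * FreeGroup.of d := hd
        rw [h2, h3, mul_inv_cancel_right]
  exact key _ _ h1

/-- **Q1: proved.** -/
theorem result (K : Type*) [Field K] (B : Type*) (T : Set (FreeGroup B)) (hT : IsSubtree T)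
    (I : RightIdeal K B) (hI : GeneratedOn I T) (f : MonoidAlgebra K (FreeGroup B))
    (hf : SupportedOn f T) (hprim : PrimitiveIn f I) :
    ∃ G : Set (MonoidAlgebra K (FreeGroup B)), IsBasisOf G I ∧ f ∈ G ∧
      ∀ g ∈ G, SupportedOn g T := by
  classical
  obtain ⟨s, ⟨hs1, hs2⟩, hfs⟩ := hprim
  have hne : T.Nonempty := by
    have := hT.nonempty
    exact Set.nonempty_coe_sort.1 this
  have hI' : rspan (IT I T) = I := hI
  obtain ⟨G, h1, h2, h3, h4⟩ := main (conn_of_isSubtree hT) hne hI' hf hs1 hs2 hfs
  exact ⟨G, ⟨h3, h4⟩, h1, h2⟩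

end Pool.Agent.Results.MP_1698af_al.SubtreeBases
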